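import Pool.Agent.W876.Cut.Iso
import Pool.Agent.W876.Cut.Seq2

/-!
# MP_0eabd7_lc, Q1: an algebra with property (P) and cardinal sequence `⟨ℵ₁, ℵ₁, …, 1⟩` of
length `ω₁`

In ZFC the algebra of clopen subsets of the ordinal space `ω₁ + 1` has property (P): the
uncountable closed subsets of `ω₁ + 1` are the closed unbounded subsets of `ω₁` together with the
point `ω₁`, and they are homeomorphic to `ω₁ + 1`. For `β < ω₁` the `β`-th Cantor-Bendixson
derivative of `ω₁ + 1` consists of the multiples of `ω ^ β`, and has `ℵ₁` isolated points.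
-/

namespace Pool.Agent.Results.MP_0eabd7_lc.OmegaOneInterval

open Pool.Agent.W876.Cut

/-- There is a Boolean algebra with property (P) whose cardinal sequence is `⟨ℵ₁, ℵ₁, …, 1⟩` of
length `ω₁`. (`PropP B`: `B/J ≅ B` for every ideal `J` with `B/J` uncountable. `CardSeq B κ δ`: `B`
is superatomic, `B/I_δ(B)` is finite with exactly one atom, and for `β < δ` the quotient
`B/I_β(B)` is infinite with exactly `κ` atoms.) -/
theorem result :
    ∃ (B : Type) (_ : BooleanAlgebra B), PropP B ∧
      CardSeq B (Cardinal.aleph 1) (Ordinal.omega 1 : Ordinal.{0}) := by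
  refine ⟨CO, inferInstance, propP_co, ?_⟩
  have h := cardSeq_co
  rwa [Cardinal.ord_aleph] at h

end Pool.Agent.Results.MP_0eabd7_lc.OmegaOneInterval
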